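import Mathlib

/-!
# A triplet cover of a binary phylogenetic tree that is not shellable

A binary phylogenetic tree on `14` leaves with a triplet cover of `36` pairs in which no pair of
leaves outside the cover completes four leaves whose other five pairs all lie in the cover, so that
no shelling can even begin.
-/

set_option autoImplicit false

namespace Pool.Agent.Results.MP_66d22e_co.NonShellableCover

/-- `T` is a binary phylogenetic `X`-tree: a tree whose vertices of degree `1` are exactly the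
leaves `leaf x` (`x : X`, with distinct `x` giving distinct leaves) and all of whose other vertices
have degree `3`. -/
structure IsBinaryPhylogeneticTree {X V : Type} (T : SimpleGraph V) (leaf : X → V) : Prop where
  isTree : T.IsTree
  leaf_injective : Function.Injective leaf
  leaf_degree : ∀ x, (T.neighborSet (leaf x)).ncard = 1
  interior_degree : ∀ v, v ∉ Set.range leaf → (T.neighborSet v).ncard = 3

/-- The vertices `u` and `w` lie in different components of `T` with `v` and its incident edges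
removed (for `u, w ≠ v`): every walk of `T` from `u` to `w` passes through `v`. -/
def Separates {V : Type} (T : SimpleGraph V) (v u w : V) : Prop :=
  u ≠ v ∧ w ≠ v ∧ ∀ p : T.Walk u w, v ∈ p.support

/-- The triple `a, b, c` of elements of `X` supports the vertex `v` relative to the set `C` of pairs
(a set of `2`-subsets of `X` is given as a simple graph on `X`). -/
def Supports {X V : Type} (T : SimpleGraph V) (leaf : X → V) (C : SimpleGraph X) (v : V)
    (a b c : X) : Prop :=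
  Separates T v (leaf a) (leaf b) ∧ Separates T v (leaf a) (leaf c) ∧
    Separates T v (leaf b) (leaf c) ∧ C.Adj a b ∧ C.Adj a c ∧ C.Adj b c

/-- `C` is a triplet cover for `T`: every interior vertex is supported by some triple. -/
def IsTripletCover {X V : Type} (T : SimpleGraph V) (leaf : X → V) (C : SimpleGraph X) : Prop :=
  ∀ v, v ∉ Set.range leaf → ∃ a b c, Supports T leaf C v a b c

/-- The restriction of `T` to `x, a, y, b` is the quartet `xa|yb`: the path from `x` to `a` and the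
path from `y` to `b` are vertex-disjoint. -/
def Quartet {X V : Type} (T : SimpleGraph V) (leaf : X → V) (x a y b : X) : Prop :=
  ∀ (p : T.Walk (leaf x) (leaf a)) (q : T.Walk (leaf y) (leaf b)), p.IsPath → q.IsPath →
    List.Disjoint p.support q.support

/-- The pairs of distinct elements of `X` outside `C` admit an ordering `l` such that each
`l i = {a, b}` in turn has distinct `x, y` outside `{a, b}` for which the restriction of `T` to
`{a, b, x, y}` is the quartet `xa|yb` and the five other pairs of `{a, b, x, y}` lie in `C` or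
earlier in `l`. -/
def IsShellable {X V : Type} (T : SimpleGraph V) (leaf : X → V) (C : SimpleGraph X) : Prop :=
  ∃ l : List (Sym2 X), l.Nodup ∧ (∀ e, e ∈ l ↔ ¬ e.IsDiag ∧ e ∉ C.edgeSet) ∧
    ∀ (i : ℕ) (hi : i < l.length), ∃ a b x y : X, l[i] = s(a, b) ∧
      x ≠ a ∧ x ≠ b ∧ y ≠ a ∧ y ≠ b ∧ x ≠ y ∧ Quartet T leaf x a y b ∧
      ∀ e ∈ [s(a, x), s(a, y), s(b, x), s(b, y), s(x, y)], e ∈ C.edgeSet ∨ e ∈ l.take i

/-- parent of each vertex of the tree (root `16`) -/
def par (v : Fin 26) : Fin 26 :=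
  ([15, 23, 24, 14, 24, 23, 25, 15, 18, 14, 21, 16, 19, 22, 25, 17, 16, 20, 19, 16, 16, 22, 18, 17, 20, 21] : List (Fin 26)).getD v.val 0

/-- depth of each vertex -/
def dep (v : Fin 26) : ℕ :=
  ([4, 4, 3, 7, 3, 4, 6, 4, 3, 7, 5, 1, 2, 4, 6, 3, 0, 2, 2, 1, 1, 4, 3, 3, 2, 5] : List ℕ).getD v.val 0

/-- the tree -/
def T : SimpleGraph (Fin 26) where
  Adj u w := u ≠ w ∧ (par u = w ∨ par w = u)
  symm := ⟨fun _ _ h => ⟨h.1.symm, h.2.symm⟩⟩
  loopless := ⟨fun _ h => h.1 rfl⟩

instance : DecidableRel T.Adj := fun u w =>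
  inferInstanceAs (Decidable (u ≠ w ∧ (par u = w ∨ par w = u)))

/-- the leaves -/
def leaf (x : Fin 14) : Fin 26 := ⟨x.val, by omega⟩

/-- the pairs of the cover -/
def pairs : List (ℕ × ℕ) :=
  [(0, 6), (0, 7), (0, 9), (0, 11), (1, 3), (1, 4), (1, 5), (1, 10), (2, 4), (2, 5), (2, 7), (2, 9), (3, 5), (3, 8), (3, 9), (3, 11), (3, 12), (4, 9), (4, 10), (4, 11), (4, 13), (5, 6), (5, 7), (5, 13), (6, 8), (6, 9), (6, 10), (6, 13), (7, 10), (7, 11), (7, 12), (8, 10), (8, 11), (9, 12), (10, 12), (11, 13)]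

/-- the cover -/
def C : SimpleGraph (Fin 14) where
  Adj a b := a ≠ b ∧ ((a.val, b.val) ∈ pairs ∨ (b.val, a.val) ∈ pairs)
  symm := ⟨fun _ _ h => ⟨h.1.symm, h.2.symm⟩⟩
  loopless := ⟨fun _ h => h.1 rfl⟩

instance : DecidableRel C.Adj := fun a b =>
  inferInstanceAs (Decidable (a ≠ b ∧ ((a.val, b.val) ∈ pairs ∨ (b.val, a.val) ∈ pairs)))

/-- component labels of the vertices of the tree after removing an interior vertex -/
def comp : ℕ → List ℕ
  | 14 => [1, 1, 1, 2, 1, 1, 1, 1, 1, 0, 1, 1, 1, 1, 3, 1, 1, 1, 1, 1, 1, 1, 1, 1, 1, 1]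
  | 15 => [2, 1, 1, 1, 1, 1, 1, 0, 1, 1, 1, 1, 1, 1, 1, 3, 1, 1, 1, 1, 1, 1, 1, 1, 1, 1]
  | 16 => [1, 1, 1, 2, 1, 1, 2, 1, 2, 2, 2, 0, 2, 2, 2, 1, 3, 1, 2, 2, 1, 2, 2, 1, 1, 2]
  | 17 => [2, 1, 0, 0, 0, 1, 0, 2, 0, 0, 0, 0, 0, 0, 0, 2, 0, 3, 0, 0, 0, 0, 0, 1, 0, 0]
  | 18 => [0, 0, 0, 1, 0, 0, 1, 0, 2, 1, 1, 0, 0, 1, 1, 0, 0, 0, 3, 0, 0, 1, 1, 0, 0, 1]
  | 19 => [1, 1, 1, 0, 1, 1, 0, 1, 0, 0, 0, 1, 2, 0, 0, 1, 1, 1, 0, 3, 1, 0, 0, 1, 1, 0]
  | 20 => [0, 0, 1, 2, 1, 0, 2, 0, 2, 2, 2, 2, 2, 2, 2, 0, 2, 0, 2, 2, 3, 2, 2, 0, 1, 2]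
  | 21 => [2, 2, 2, 0, 2, 2, 0, 2, 2, 0, 1, 2, 2, 2, 0, 2, 2, 2, 2, 2, 2, 3, 2, 2, 2, 0]
  | 22 => [0, 0, 0, 2, 0, 0, 2, 0, 0, 2, 2, 0, 0, 1, 2, 0, 0, 0, 0, 0, 0, 2, 3, 0, 0, 2]
  | 23 => [1, 2, 1, 1, 1, 0, 1, 1, 1, 1, 1, 1, 1, 1, 1, 1, 1, 1, 1, 1, 1, 1, 1, 3, 1, 1]
  | 24 => [0, 0, 2, 0, 1, 0, 0, 0, 0, 0, 0, 0, 0, 0, 0, 0, 0, 0, 0, 0, 0, 0, 0, 0, 3, 0]
  | 25 => [2, 2, 2, 0, 2, 2, 1, 2, 2, 0, 2, 2, 2, 2, 0, 2, 2, 2, 2, 2, 2, 2, 2, 2, 2, 3]
  | _ => []

/-- the supporting triples -/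
def sup : ℕ → Fin 14 × Fin 14 × Fin 14
  | 14 => (12, 3, 9)
  | 15 => (7, 11, 0)
  | 16 => (13, 11, 4)
  | 17 => (7, 5, 2)
  | 18 => (11, 3, 8)
  | 19 => (10, 7, 12)
  | 20 => (4, 1, 10)
  | 21 => (10, 6, 8)
  | 22 => (5, 13, 6)
  | 23 => (5, 1, 3)
  | 24 => (2, 4, 9)
  | 25 => (9, 0, 6)
  | _ => (0, 0, 0)

theorem par_spec : ∀ v : Fin 26, v ≠ 16 → T.Adj v (par v) ∧ dep (par v) < dep v := by
  decide +kernel

theorem reach : ∀ (k : ℕ) (v : Fin 26), dep v ≤ k → T.Reachable v 16 := by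
  intro k
  induction k with
  | zero =>
    intro v hv
    by_cases h : v = 16
    · rw [h]
    · have := (par_spec v h).2
      omega
  | succ k ih =>
    intro v hv
    by_cases h : v = 16
    · rw [h]
    · obtain ⟨h1, h2⟩ := par_spec v h
      exact h1.reachable.trans (ih _ (by omega))

theorem connected : T.Connected := by
  have : Nonempty (Fin 26) := ⟨0⟩
  refine ⟨fun u w => ?_⟩
  exact (reach _ u le_rfl).trans (reach _ w le_rfl).symm

theorem card_edges : T.edgeFinset.card = 25 := by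
  decide +kernel

theorem isTree : T.IsTree := by
  rw [SimpleGraph.isTree_iff_connected_and_card]
  refine ⟨connected, ?_⟩
  rw [Nat.card_eq_fintype_card, ← SimpleGraph.edgeFinset_card, card_edges]
  simp

theorem degrees : ∀ v : Fin 26, T.degree v = if v.val < 14 then 1 else 3 := by
  decide +kernel

theorem ncard_eq (v : Fin 26) : (T.neighborSet v).ncard = T.degree v := by
  rw [← SimpleGraph.card_neighborSet_eq_degree, Set.ncard_eq_toFinset_card', Set.toFinset_card]

theorem mem_range (v : Fin 26) : v ∈ Set.range leaf ↔ v.val < 14 := by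
  constructor
  · rintro ⟨x, rfl⟩
    exact x.2
  · intro h
    exact ⟨⟨v.val, h⟩, rfl⟩

theorem phylo : IsBinaryPhylogeneticTree T leaf where
  isTree := isTree
  leaf_injective := by
    intro x y h
    have := congrArg Fin.val h
    exact Fin.ext this
  leaf_degree := by
    intro x
    rw [ncard_eq, degrees]
    exact if_pos x.2
  interior_degree := by
    intro v hv
    rw [mem_range] at hv
    rw [ncard_eq, degrees, if_neg hv]

theorem comp_const : ∀ v u w : Fin 26, 14 ≤ v.val → u ≠ v → w ≠ v → T.Adj u w →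
    (comp v.val).getD u.val 0 = (comp v.val).getD w.val 0 := by
  decide +kernel

theorem sep (v : Fin 26) (hv : 14 ≤ v.val) (u w : Fin 26) (hu : u ≠ v) (hw : w ≠ v)
    (hne : (comp v.val).getD u.val 0 ≠ (comp v.val).getD w.val 0) : Separates T v u w := by
  refine ⟨hu, hw, ?_⟩
  intro p
  induction p with
  | nil => exact absurd rfl hne
  | @cons a b c hab q ih =>
    rw [SimpleGraph.Walk.support_cons, List.mem_cons]
    right
    by_cases hb : b = v
    · subst hb
      exact q.start_mem_support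
    · exact ih hb hw (by rwa [← comp_const v a b hv hu hb hab])

theorem sup_spec : ∀ v : Fin 26, 14 ≤ v.val →
    (comp v.val).getD (sup v.val).1.val 0 ≠ (comp v.val).getD (sup v.val).2.1.val 0 ∧
    (comp v.val).getD (sup v.val).1.val 0 ≠ (comp v.val).getD (sup v.val).2.2.val 0 ∧
    (comp v.val).getD (sup v.val).2.1.val 0 ≠ (comp v.val).getD (sup v.val).2.2.val 0 ∧
    C.Adj (sup v.val).1 (sup v.val).2.1 ∧ C.Adj (sup v.val).1 (sup v.val).2.2 ∧
    C.Adj (sup v.val).2.1 (sup v.val).2.2 := by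
  decide +kernel

theorem cover : IsTripletCover T leaf C := by
  intro v hv
  rw [mem_range, not_lt] at hv
  obtain ⟨h1, h2, h3, h4, h5, h6⟩ := sup_spec v hv
  have hl : ∀ x : Fin 14, leaf x ≠ v := by
    intro x hx
    have h7 : (leaf x).val = v.val := congrArg Fin.val hx
    have h8 : (leaf x).val = x.val := rfl
    have := x.2
    omega
  exact ⟨_, _, _, sep v hv _ _ (hl _) (hl _) h1, sep v hv _ _ (hl _) (hl _) h2,
    sep v hv _ _ (hl _) (hl _) h3, h4, h5, h6⟩

theorem no_diamond : ∀ x y : Fin 14, C.Adj x y → ∀ a : Fin 14, C.Adj a x → C.Adj a y →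
    ∀ b : Fin 14, C.Adj b x → C.Adj b y → a = b := by
  decide +kernel

theorem not_shellable : ¬ IsShellable T leaf C := by
  rintro ⟨l, -, hl, h⟩
  have hmem : s((0 : Fin 14), 1) ∈ l := by
    rw [hl]
    refine ⟨by decide, ?_⟩
    rw [SimpleGraph.mem_edgeSet]
    decide
  have hpos : 0 < l.length := List.length_pos_of_mem hmem
  obtain ⟨a, b, x, y, hab, -, -, -, -, -, -, hE⟩ := h 0 hpos
  have hdiag : ¬ (s(a, b)).IsDiag := by
    rw [← hab]
    exact ((hl _).1 (List.getElem_mem hpos)).1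
  have key : ∀ e ∈ [s(a, x), s(a, y), s(b, x), s(b, y), s(x, y)], e ∈ C.edgeSet := by
    intro e he
    rcases hE e he with h1 | h1
    · exact h1
    · simp at h1
  have e1 : C.Adj a x := by simpa using key s(a, x) (by simp)
  have e2 : C.Adj a y := by simpa using key s(a, y) (by simp)
  have e3 : C.Adj b x := by simpa using key s(b, x) (by simp)
  have e4 : C.Adj b y := by simpa using key s(b, y) (by simp)
  have e5 : C.Adj x y := by simpa using key s(x, y) (by simp)
  apply hdiag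
  rw [no_diamond x y e5 a e1 e2 b e3 e4]
  simp

/-- There are a binary phylogenetic tree on `14` leaves and a triplet cover for it that is not
shellable. -/
theorem result : ∃ (V : Type) (_ : Fintype V) (T : SimpleGraph V) (leaf : Fin 14 → V)
    (C : SimpleGraph (Fin 14)), IsBinaryPhylogeneticTree T leaf ∧ IsTripletCover T leaf C ∧
      ¬ IsShellable T leaf C :=
  ⟨Fin 26, inferInstance, T, leaf, C, phylo, cover, not_shellable⟩

end Pool.Agent.Results.MP_66d22e_co.NonShellableCover
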